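import Pool.Agent.H79.Drift.Stmts

/-!
# Drift: BOX, finitely many systems
-/

set_option autoImplicit false

namespace Pool.H79.Drift

open Pool.H79.Maze

theorem BOX : BOXStmt := by
  classical
  intro r k
  have h1 : (((Box r).powerset ×ˢ ((Box r ×ˢ (Finset.univ : Finset Dir)).powerset ×ˢ Box k) :
      Finset (Finset (ℤ × ℤ) × (Finset ((ℤ × ℤ) × Dir) × (ℤ × ℤ)))) :
      Set (Finset (ℤ × ℤ) × (Finset ((ℤ × ℤ) × Dir) × (ℤ × ℤ)))).Finite := Finset.finite_toSet _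
  have h2 := h1.image (fun z => (⟨z.1, z.2.1, z.2.2⟩ : Sys))
  refine h2.subset ?_
  rintro ⟨A, O, d⟩ ⟨hA, hO, hd⟩
  refine ⟨(A, (O, d)), ?_, rfl⟩
  rw [Finset.mem_coe, Finset.mem_product, Finset.mem_product, Finset.mem_powerset,
    Finset.mem_powerset]
  refine ⟨hA, ?_, hd⟩
  intro p hp
  exact Finset.mem_product.2 ⟨hA (hO p hp), Finset.mem_univ _⟩

end Pool.H79.Drift
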