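import Pool.Agent.H79.Drift.Stmts

/-!
# Drift: MAX, the Green function is maximal at the starting point
-/

set_option autoImplicit false

namespace Pool.H79.Drift

open Pool.H79.Maze

theorem MAX (h1 : GRCStmt) (h2 : MONStmt) : MAXStmt := by
  intro s ω hω
  obtain ⟨-, -, hpos, -⟩ := h2 s ω hω
  have dl0 : ∀ u : ℤ × ℤ, 0 ≤ dl u := by
    intro u
    unfold dl
    split_ifs <;> norm_num
  have hP : ∀ (t : ℕ) (u : ℤ × ℤ), 0 ≤ (s.P ω)^[t] dl u := fun t u => hpos dl dl0 t u
  have hG0 : ∀ (T : ℕ) (u : ℤ × ℤ), 0 ≤ s.G ω dl T u := fun T u =>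
    Finset.sum_nonneg fun t _ => hP t u
  have hGs : ∀ (T : ℕ) (u : ℤ × ℤ), s.G ω dl T u ≤ s.G ω dl (T + 1) u := by
    intro T u
    unfold Sys.G
    rw [Finset.sum_range_succ]
    have := hP T u
    linarith
  have hmax : ∀ (T : ℕ) (u : ℤ × ℤ), s.G ω dl T u ≤ s.G ω dl T 0 := by
    intro T
    induction T with
    | zero =>
      intro u
      simp [Sys.G]
    | succ T ih =>
      intro u
      by_cases hu : u = 0
      · rw [hu]
      · rw [h1 s ω dl T u]
        have hd : dl u = 0 := by
          unfold dl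
          rw [if_neg hu]
        rw [hd, zero_add]
        refine le_trans ?_ (hGs T 0)
        calc s.P ω (s.G ω dl T) u ≤ ∑ I : Dir, ω I * s.G ω dl T 0 := by
              unfold Sys.P
              refine Finset.sum_le_sum fun I _ => mul_le_mul_of_nonneg_left ?_ (hω.1 I)
              split_ifs
              · exact ih _
              · exact hG0 T 0
          _ = s.G ω dl T 0 := by
              rw [← Finset.sum_mul, hω.2, one_mul]
  exact fun T u => ⟨hG0 T u, hGs T u, hmax T u⟩

end Pool.H79.Drift
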